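import Pool.Agent.Lib.MP_92084f_co.Full

/-!
An upper bound for the star chromatic index of the complete graph: for every `ε > 0` and all large
`n`, the edges of `K_n` have a proper colouring with at most
`n * 2 ^ ((2 * √(2 / 7) + ε) * √(log₂ n))` colours in which no path with four edges and no
four-cycle uses only two colours.
-/

set_option autoImplicit false

namespace Pool.Agent.Results.MP_92084f_co.OctonionUpperBound

open Pool.Agent.Lib.MP_92084f_co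

theorem result (ε : ℝ) (hε : 0 < ε) : ∃ n0 : ℕ, ∀ n : ℕ, n0 ≤ n → ∃ k : ℕ,
    (k : ℝ) ≤ n * (2 : ℝ) ^ ((2 * √(2 / 7) + ε) * √(Real.logb 2 n)) ∧
    ∃ c : Sym2 (Fin n) → Fin k,
      (∀ a b d : Fin n, a ≠ b → a ≠ d → b ≠ d → c s(a, b) ≠ c s(a, d)) ∧
      (∀ v0 v1 v2 v3 v4 : Fin n,
        v0 ≠ v1 → v0 ≠ v2 → v0 ≠ v3 → v1 ≠ v2 → v1 ≠ v3 → v2 ≠ v3 →
        v4 ≠ v1 → v4 ≠ v2 → v4 ≠ v3 →
        ¬ (c s(v0, v1) = c s(v2, v3) ∧ c s(v1, v2) = c s(v3, v4))) := by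
  obtain ⟨n0, h⟩ := star_eventually ε hε
  refine ⟨n0, fun n hn => ?_⟩
  obtain ⟨k, hk, c, h1, h2, h3⟩ := h n hn
  exact ⟨k, hk, Sym2.lift ⟨c, h1⟩, h2, h3⟩

end Pool.Agent.Results.MP_92084f_co.OctonionUpperBound
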